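import Pool.Agent.helper33.EF.C

set_option autoImplicit false

open scoped FourierTransform

namespace Pool.Agent.Results.MP_efeed6_an.BothEigenspaces

/-- For both eigenvalues of the Fourier transform on radial functions of the plane there are
infinitely many linearly independent real radial Schwartz eigenfunctions which, together with the
derivative of the radial profile, vanish at all hexagonal lattice distances. -/
theorem result (e : ℝ) (he : e = 1 ∨ e = -1) :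
    ∃ (f : ℕ → SchwartzMap (EuclideanSpace ℝ (Fin 2)) ℝ) (F : ℕ → ℝ → ℝ),
      LinearIndependent ℝ f ∧ ∀ i : ℕ,
        (∀ x : EuclideanSpace ℝ (Fin 2), f i x = F i ‖x‖) ∧
        (∀ ξ : EuclideanSpace ℝ (Fin 2),
          𝓕 (fun x : EuclideanSpace ℝ (Fin 2) => (f i x : ℂ)) ξ = ((e * F i ‖ξ‖ : ℝ) : ℂ)) ∧
        (∃ C : ℝ, ∀ r : ℝ, |F i r| ≤ C * Real.exp (-(Real.pi / 4) * r ^ 2)) ∧
        (∀ j k : ℤ,
          F i ((4 / 3 : ℝ) ^ ((1 : ℝ) / 4) *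
            Real.sqrt ((j : ℝ) ^ 2 + (j : ℝ) * (k : ℝ) + (k : ℝ) ^ 2)) = 0 ∧
          HasDerivAt (F i) 0 ((4 / 3 : ℝ) ^ ((1 : ℝ) / 4) *
            Real.sqrt ((j : ℝ) ^ 2 + (j : ℝ) * (k : ℝ) + (k : ℝ) ^ 2))) ∧
        (∀ n : ℕ, n % 3 ≠ 2 → n % 4 ≠ 2 →
          F i ((4 / 3 : ℝ) ^ ((1 : ℝ) / 4) * Real.sqrt n) = 0 ∧
          HasDerivAt (F i) 0 ((4 / 3 : ℝ) ^ ((1 : ℝ) / 4) * Real.sqrt n)) := by
  obtain ⟨f, F, hli, h⟩ := Pool.Agent.helper33.EF.EF_main e he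
  refine ⟨f, F, hli, fun i => ?_⟩
  obtain ⟨h1, h2, h3, h4⟩ := h i
  refine ⟨h1, h2, h3, fun j k => ?_, h4⟩
  obtain ⟨n, hn, hn24, hn2⟩ := Pool.Agent.helper37.loeschian_nat j k
  have hres : n % 3 ≠ 2 ∧ n % 4 ≠ 2 := by
    unfold Pool.Agent.helper37.resSet at hn24
    rw [Finset.mem_filter] at hn24
    rcases hn24.2 with h | h
    · omega
    · exact absurd h hn2
  have hnR : (j : ℝ) ^ 2 + (j : ℝ) * (k : ℝ) + (k : ℝ) ^ 2 = (n : ℝ) := by exact_mod_cast hn.symm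
  rw [hnR]
  exact h4 n hres.1 hres.2

end Pool.Agent.Results.MP_efeed6_an.BothEigenspaces
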